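import Pool.Agent.Lib_helper65.PC.B

/-!
# Both signs along `n^3 + e b k^3`
-/

set_option autoImplicit false

namespace Pool.Agent.Lib_helper65.PC

open Pool.Agent.Lib_helper11.CUB Filter

variable {h : ℕ → ℤ}

/-- the sequence `h(|n^3 + c|)` is not eventually constant -/
def Osc (h : ℕ → ℤ) (c : ℤ) : Prop :=
  ∀ N : ℕ, ∀ s : ℤ, (s = 1 ∨ s = -1) → ∃ n : ℕ, N ≤ n ∧ (n : ℤ) ^ 3 + c ≠ 0 ∧
    h ((n : ℤ) ^ 3 + c).natAbs = s

theorem not_osc (hh : CM h) {c : ℤ} (h1 : ¬ Osc h c) :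
    ∃ s : ℤ, ∃ N : ℕ, ∀ n : ℕ, N ≤ n → (n : ℤ) ^ 3 + c ≠ 0 ∧ h ((n : ℤ) ^ 3 + c).natAbs = s := by
  unfold Osc at h1
  push Not at h1
  obtain ⟨N, s, hs, h2⟩ := h1
  refine ⟨-s, max N (c.natAbs + 1), fun n hn => ?_⟩
  have hn1 : N ≤ n := le_trans (le_max_left _ _) hn
  have hn2 : c.natAbs + 1 ≤ n := le_trans (le_max_right _ _) hn
  have hne : (n : ℤ) ^ 3 + c ≠ 0 := by
    have h3 : (n : ℤ) ≤ (n : ℤ) ^ 3 := by
      have : (1 : ℤ) ≤ n := by omega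
      nlinarith [sq_nonneg ((n : ℤ) - 1), mul_nonneg (by omega : (0 : ℤ) ≤ n) (by omega : (0 : ℤ) ≤ (n : ℤ) - 1)]
    have h4 : (c.natAbs : ℤ) + 1 ≤ n := by exact_mod_cast hn2
    have h5 : -(c.natAbs : ℤ) ≤ c := by omega
    omega
  refine ⟨hne, ?_⟩
  have h3 := h2 n hn1 hne
  have h4 := hh.values _ (Int.natAbs_pos.2 hne)
  rcases hs with rfl | rfl <;> rcases h4 with h4 | h4 <;> simp_all

/-- if nothing oscillates, then `h` has constant signs at both ends -/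
theorem TS_of (hh : CM h) {b : ℤ}
    (H0 : ∀ k : ℕ, 1 ≤ k → ¬ Osc h (b * (k : ℤ) ^ 3) ∧ ¬ Osc h (-(b * (k : ℤ) ^ 3))) :
    ∃ p m : ℤ, TS h (fun x => x ^ 3 + (b : ℚ)) p m := by
  obtain ⟨p, N1, h1⟩ := not_osc hh (H0 1 le_rfl).1
  obtain ⟨m, M1, g1⟩ := not_osc hh (H0 1 le_rfl).2
  refine ⟨p, m, fun D hD => ?_⟩
  obtain ⟨p', N', h'⟩ := not_osc hh (H0 D hD).1
  obtain ⟨m', M', g'⟩ := not_osc hh (H0 D hD).2
  have hDq : (D : ℚ) ≠ 0 := by exact_mod_cast (by omega : D ≠ 0)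
  have hDp : (0 : ℚ) < D := by exact_mod_cast (by omega : 0 < D)
  have hD3 : (D : ℚ) ^ 3 ≠ 0 := pow_ne_zero 3 hDq
  -- the value of `h` along `z/D`
  have up : ∀ z : ℤ, (z : ℚ) ^ 3 + b * (D : ℚ) ^ 3 ≠ 0 →
      H h (((z : ℚ) / D) ^ 3 + b) = h (z ^ 3 + b * (D : ℤ) ^ 3).natAbs * h D := by
    intro z hz
    have hx : ((z : ℚ) / D) ^ 3 + b ≠ 0 := by
      intro h0
      apply hz
      have : (z : ℚ) ^ 3 + b * (D : ℚ) ^ 3 = (((z : ℚ) / D) ^ 3 + b) * (D : ℚ) ^ 3 := by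
        field_simp
      rw [this, h0, zero_mul]
    have e : (((z ^ 3 + b * (D : ℤ) ^ 3 : ℤ)) : ℚ) = (((z : ℚ) / D) ^ 3 + b) * (D : ℚ) ^ 3 := by
      push_cast
      field_simp
    have e2 := congrArg (H h) e
    rw [H_int hh, H_mul hh hx hD3, H_pow3 hh hDq, H_nat hh] at e2
    rw [e2, mul_assoc, hh.sq hD, mul_one]
  have pp : p' * h D = p := by
    obtain ⟨n, hn⟩ : ∃ n : ℕ, n = max N1 N' := ⟨_, rfl⟩
    have a1 := h1 n (by omega)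
    have a2 := h' (D * n) (by
      have : 1 * n ≤ D * n := Nat.mul_le_mul_right n hD
      omega)
    have e : ((D * n : ℕ) : ℤ) ^ 3 + b * (D : ℤ) ^ 3 = ((n : ℤ) ^ 3 + b * ((1 : ℕ) : ℤ) ^ 3) *
        (D : ℤ) ^ 3 := by push_cast; ring
    rw [e, Int.natAbs_mul, Int.natAbs_pow, Int.natAbs_natCast,
      hh.mul _ _ (Int.natAbs_pos.2 a1.1) (Nat.pow_pos (by omega)), a1.2] at a2
    have e3 : h (D ^ 3) = h D := by
      rw [pow_succ, pow_two, hh.mul _ _ (Nat.mul_pos hD hD) hD, hh.mul _ _ hD hD, hh.sq hD,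
        one_mul]
    rw [e3] at a2
    rw [← a2.2, mul_assoc, hh.sq hD, mul_one]
  have mm : m' * h D = m := by
    obtain ⟨n, hn⟩ : ∃ n : ℕ, n = max M1 M' := ⟨_, rfl⟩
    have a1 := g1 n (by omega)
    have a2 := g' (D * n) (by
      have : 1 * n ≤ D * n := Nat.mul_le_mul_right n hD
      omega)
    have e : ((D * n : ℕ) : ℤ) ^ 3 + -(b * (D : ℤ) ^ 3) =
        ((n : ℤ) ^ 3 + -(b * ((1 : ℕ) : ℤ) ^ 3)) * (D : ℤ) ^ 3 := by push_cast; ring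
    rw [e, Int.natAbs_mul, Int.natAbs_pow, Int.natAbs_natCast,
      hh.mul _ _ (Int.natAbs_pos.2 a1.1) (Nat.pow_pos (by omega)), a1.2] at a2
    have e3 : h (D ^ 3) = h D := by
      rw [pow_succ, pow_two, hh.mul _ _ (Nat.mul_pos hD hD) hD, hh.mul _ _ hD hD, hh.sq hD,
        one_mul]
    rw [e3] at a2
    rw [← a2.2, mul_assoc, hh.sq hD, mul_one]
  refine ⟨max N' M', fun z => ⟨fun hz => ?_, fun hz => ?_⟩⟩
  · have hN : (N' : ℚ) ≤ (z : ℚ) / D := le_trans (le_max_left _ _) hz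
    rw [le_div_iff₀ hDp] at hN
    have hN2 : ((N' * D : ℕ) : ℤ) ≤ z := by
      have : (((N' * D : ℕ) : ℤ) : ℚ) ≤ (z : ℚ) := by push_cast; exact hN
      exact_mod_cast this
    obtain ⟨n, rfl⟩ : ∃ n : ℕ, z = n := ⟨z.toNat, by omega⟩
    have hN3 : N' ≤ n := by
      have h1 : N' * 1 ≤ N' * D := Nat.mul_le_mul_left N' hD
      have h2 : N' * D ≤ n := by exact_mod_cast hN2
      omega
    have a := h' n hN3
    have hne : ((n : ℤ) : ℚ) ^ 3 + b * (D : ℚ) ^ 3 ≠ 0 := by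
      have := a.1
      exact_mod_cast this
    have u := up n hne
    refine ⟨?_, ?_⟩
    · intro h0
      apply hne
      have : ((n : ℤ) : ℚ) ^ 3 + b * (D : ℚ) ^ 3 = ((((n : ℤ) : ℚ) / D) ^ 3 + b) * (D : ℚ) ^ 3 := by
        field_simp
      rw [this]
      show ((((n : ℤ) : ℚ) / D) ^ 3 + b) * (D : ℚ) ^ 3 = 0
      rw [show (((n : ℤ) : ℚ) / D) ^ 3 + (b : ℚ) = 0 from h0, zero_mul]
    · show H h ((((n : ℤ) : ℚ) / D) ^ 3 + b) = p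
      rw [u, a.2, pp]
  · have hM : (M' : ℚ) ≤ -((z : ℚ) / D) := by
      have : (z : ℚ) / D ≤ -(M' : ℚ) := le_trans hz (neg_le_neg (le_max_right _ _))
      linarith
    rw [← neg_div, le_div_iff₀ hDp] at hM
    have hM2 : ((M' * D : ℕ) : ℤ) ≤ -z := by
      have : (((M' * D : ℕ) : ℤ) : ℚ) ≤ ((-z : ℤ) : ℚ) := by push_cast; exact hM
      exact_mod_cast this
    obtain ⟨n, hn⟩ : ∃ n : ℕ, z = -n := ⟨(-z).toNat, by omega⟩
    subst hn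
    have hM3 : M' ≤ n := by
      have h1 : M' * 1 ≤ M' * D := Nat.mul_le_mul_left M' hD
      have h2 : M' * D ≤ n := by
        have : ((M' * D : ℕ) : ℤ) ≤ (n : ℤ) := by rw [neg_neg] at hM2; exact hM2
        exact_mod_cast this
      omega
    have a := g' n hM3
    have hz1 : (-(n : ℤ)) ^ 3 + b * (D : ℤ) ^ 3 = -((n : ℤ) ^ 3 + -(b * (D : ℤ) ^ 3)) := by ring
    have hne : ((-(n : ℤ) : ℤ) : ℚ) ^ 3 + b * (D : ℚ) ^ 3 ≠ 0 := by
      have h3 : (-(n : ℤ)) ^ 3 + b * (D : ℤ) ^ 3 ≠ 0 := by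
        rw [hz1]; exact neg_ne_zero.2 a.1
      exact_mod_cast h3
    have u := up (-n) hne
    refine ⟨?_, ?_⟩
    · intro h0
      apply hne
      have : ((-(n : ℤ) : ℤ) : ℚ) ^ 3 + b * (D : ℚ) ^ 3 =
          ((((-(n : ℤ) : ℤ) : ℚ) / D) ^ 3 + b) * (D : ℚ) ^ 3 := by
        field_simp
      rw [this, show (((-(n : ℤ) : ℤ) : ℚ) / D) ^ 3 + (b : ℚ) = 0 from h0, zero_mul]
    · show H h ((((-(n : ℤ) : ℤ) : ℚ) / D) ^ 3 + b) = m
      rw [u, hz1, Int.natAbs_neg, a.2, mm]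

/-- reflection -/
theorem TS_neg {b p m : ℤ} (hf : TS h (fun x => x ^ 3 + (b : ℚ)) p m) :
    TS h (fun x => x ^ 3 + ((-b : ℤ) : ℚ)) m p := by
  intro D hD
  obtain ⟨N, hN⟩ := hf D hD
  have e : ∀ x : ℚ, x ^ 3 + ((-b : ℤ) : ℚ) = -((-x) ^ 3 + (b : ℚ)) := by
    intro x; push_cast; ring
  refine ⟨N, fun z => ⟨fun hz => ?_, fun hz => ?_⟩⟩
  · have h1 := (hN (-z)).2 (by push_cast; rw [neg_div]; exact neg_le_neg hz)
    push_cast at h1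
    rw [neg_div] at h1
    refine ⟨?_, ?_⟩
    · show ((z : ℚ) / D) ^ 3 + ((-b : ℤ) : ℚ) ≠ 0
      rw [e]; exact neg_ne_zero.2 h1.1
    · show H h (((z : ℚ) / D) ^ 3 + ((-b : ℤ) : ℚ)) = m
      rw [e, H_neg]; exact h1.2
  · have h1 := (hN (-z)).1 (by push_cast; rw [neg_div]; linarith)
    push_cast at h1
    rw [neg_div] at h1
    refine ⟨?_, ?_⟩
    · show ((z : ℚ) / D) ^ 3 + ((-b : ℤ) : ℚ) ≠ 0
      rw [e]; exact neg_ne_zero.2 h1.1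
    · show H h (((z : ℚ) / D) ^ 3 + ((-b : ℤ) : ℚ)) = p
      rw [e, H_neg]; exact h1.2

/-- **Pure cubic polynomials.**  If `h` is not identically `1`, then for every integer `b ≠ 0` there is
an integer `k ≥ 1` such that `h(|n^3 + b k^3|)` or `h(|n^3 - b k^3|)` takes both signs infinitely
often. -/
theorem pure (hh : CM h) (hne : ∃ n : ℕ, 1 ≤ n ∧ h n = -1) {b : ℤ} (hb : b ≠ 0) :
    ∃ k : ℕ, 1 ≤ k ∧ (Osc h (b * (k : ℤ) ^ 3) ∨ Osc h (-(b * (k : ℤ) ^ 3))) := by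
  by_contra hcon
  push Not at hcon
  obtain ⟨p, m, hf⟩ := TS_of hh hcon
  rcases lt_or_gt_of_ne hb with h1 | h1
  · have h2 : (0 : ℚ) < ((-b : ℤ) : ℚ) := by exact_mod_cast (by omega : (0 : ℤ) < -b)
    exact main_pos hh hne h2 m p (TS_neg hf)
  · have h2 : (0 : ℚ) < (b : ℚ) := by exact_mod_cast h1
    exact main_pos hh hne h2 p m hf

end Pool.Agent.Lib_helper65.PC
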