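import Pool.Agent.Lib_helper11.CUB.Base

/-!
# A relation between five values of a cubic polynomial

If `h` is constant at both ends along all dilations of a monic cubic polynomial `f`, then the value of
`h` at the rational number `κ(u) = f''(u)/2 - 6 f(u)/f'(u) - f'(u)^2/(9 f(u))` is given by the sign of
`κ(u)`, for every rational `u`.
-/

set_option autoImplicit false

namespace Pool.Agent.Lib_helper65.PC

open Pool.Agent.Lib_helper11.CUB Filter

/-- `h` has the sign `p` near `+∞` and the sign `m` near `-∞` along `f`, for all denominators. -/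
def TS (h : ℕ → ℤ) (f : ℚ → ℚ) (p m : ℤ) : Prop :=
  ∀ D : ℕ, 1 ≤ D → ∃ N : ℚ, ∀ z : ℤ,
    (N ≤ (z : ℚ) / D → f ((z : ℚ) / D) ≠ 0 ∧ H h (f ((z : ℚ) / D)) = p) ∧
    ((z : ℚ) / D ≤ -N → f ((z : ℚ) / D) ≠ 0 ∧ H h (f ((z : ℚ) / D)) = m)

/-- bounded denominators -/
def BD (a : ℕ → ℚ) : Prop := ∃ D : ℕ, 1 ≤ D ∧ ∀ v, ∃ z : ℤ, a v = (z : ℚ) / D

theorem BD.const (c : ℚ) : BD fun _ => c :=
  ⟨c.den, c.den_pos, fun _ => ⟨c.num, (Rat.num_div_den c).symm⟩⟩

theorem BD.id : BD fun v => (v : ℚ) := ⟨1, le_rfl, fun v => ⟨v, by simp⟩⟩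

theorem BD.add {a b : ℕ → ℚ} (ha : BD a) (hb : BD b) : BD fun v => a v + b v := by
  obtain ⟨D, hD, h1⟩ := ha
  obtain ⟨E, hE, h2⟩ := hb
  refine ⟨D * E, Nat.mul_pos hD hE, fun v => ?_⟩
  obtain ⟨x, hx⟩ := h1 v
  obtain ⟨y, hy⟩ := h2 v
  have hD' : (D : ℚ) ≠ 0 := by exact_mod_cast (by omega : D ≠ 0)
  have hE' : (E : ℚ) ≠ 0 := by exact_mod_cast (by omega : E ≠ 0)
  refine ⟨x * E + y * D, ?_⟩
  show a v + b v = _
  rw [hx, hy]
  push_cast
  field_simp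

theorem BD.mul {a b : ℕ → ℚ} (ha : BD a) (hb : BD b) : BD fun v => a v * b v := by
  obtain ⟨D, hD, h1⟩ := ha
  obtain ⟨E, hE, h2⟩ := hb
  refine ⟨D * E, Nat.mul_pos hD hE, fun v => ?_⟩
  obtain ⟨x, hx⟩ := h1 v
  obtain ⟨y, hy⟩ := h2 v
  have hD' : (D : ℚ) ≠ 0 := by exact_mod_cast (by omega : D ≠ 0)
  have hE' : (E : ℚ) ≠ 0 := by exact_mod_cast (by omega : E ≠ 0)
  refine ⟨x * y, ?_⟩
  show a v * b v = _
  rw [hx, hy]
  push_cast
  field_simp

theorem TS.top {h : ℕ → ℤ} {f : ℚ → ℚ} {p m : ℤ} (hf : TS h f p m) {a : ℕ → ℚ} (ha : BD a)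
    (h1 : Tendsto a atTop atTop) : ∀ᶠ v in atTop, f (a v) ≠ 0 ∧ H h (f (a v)) = p := by
  obtain ⟨D, hD, h2⟩ := ha
  obtain ⟨N, hN⟩ := hf D hD
  filter_upwards [h1.eventually_ge_atTop N] with v hv
  obtain ⟨z, hz⟩ := h2 v
  rw [hz] at hv ⊢
  exact (hN z).1 hv

theorem TS.bot {h : ℕ → ℤ} {f : ℚ → ℚ} {p m : ℤ} (hf : TS h f p m) {a : ℕ → ℚ} (ha : BD a)
    (h1 : Tendsto a atTop atBot) : ∀ᶠ v in atTop, f (a v) ≠ 0 ∧ H h (f (a v)) = m := by
  obtain ⟨D, hD, h2⟩ := ha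
  obtain ⟨N, hN⟩ := hf D hD
  filter_upwards [h1.eventually_le_atBot (-N)] with v hv
  obtain ⟨z, hz⟩ := h2 v
  rw [hz] at hv ⊢
  exact (hN z).2 hv

theorem TS.shift {h : ℕ → ℤ} {f : ℚ → ℚ} {p m : ℤ} (hf : TS h f p m) (u : ℚ) :
    TS h (fun x => f (x + u)) p m := by
  intro D hD
  obtain ⟨N, hN⟩ := hf (D * u.den) (Nat.mul_pos hD u.den_pos)
  have hD' : (D : ℚ) ≠ 0 := by exact_mod_cast (by omega : D ≠ 0)
  have hu' : (u.den : ℚ) ≠ 0 := by exact_mod_cast u.den_pos.ne'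
  refine ⟨N + |u|, fun z => ?_⟩
  have e : (z : ℚ) / D + u = ((z * u.den + u.num * D : ℤ) : ℚ) / ((D * u.den : ℕ) : ℚ) := by
    have e1 : u = u.num / u.den := (Rat.num_div_den u).symm
    conv_lhs => rw [e1]
    push_cast
    field_simp
  have h1 := hN (z * u.den + u.num * D)
  rw [← e] at h1
  refine ⟨fun hz => h1.1 ?_, fun hz => h1.2 ?_⟩
  · have := neg_abs_le u
    linarith
  · have := le_abs_self u
    linarith

/-- The five arguments. -/
theorem key_id (A n m κ v x : ℚ) (hκ : κ = A - 2 * m - n) (s t1 t2 t3 k1 : ℚ)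
    (hs : s = -A + 9 * n / 4 * (1 - v ^ 2)) (h1 : t1 = s - n) (h2 : t2 = -(1 + 3 * v) / 2 * s - m)
    (h3 : t3 = -(1 - 3 * v) / 2 * s - m)
    (hk : k1 = s * ((1 - 9 * v ^ 2) / 4 * (s - n) + m) + (m ^ 2 - n * m)) :
    x ^ 3 + A * x ^ 2 + 3 * m * n * x + m ^ 2 * n =
      (x - t1) * (x - t2) * (x - t3) + (x - s) * (κ * x - k1) := by
  subst hκ h1 h2 h3 hk
  rw [hs]
  ring

theorem keyA {h : ℕ → ℤ} (hh : CM h) {A n m κ : ℚ} (hn : n ≠ 0) (hκ : κ = A - 2 * m - n)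
    (hκ0 : κ ≠ 0) {p q : ℤ}
    (hf : TS h (fun x => x ^ 3 + A * x ^ 2 + 3 * m * n * x + m ^ 2 * n) p q) :
    (0 < κ → H h κ = p) ∧ (κ < 0 → H h κ = q) := by
  obtain ⟨F, hF⟩ : ∃ F : ℚ → ℚ, F = fun x => x ^ 3 + A * x ^ 2 + 3 * m * n * x + m ^ 2 * n :=
    ⟨_, rfl⟩
  rw [← hF] at hf
  obtain ⟨s, hs⟩ : ∃ s : ℕ → ℚ, s = fun v : ℕ => -A + 9 * n / 4 * (1 - (v : ℚ) ^ 2) := ⟨_, rfl⟩
  obtain ⟨t1, h1⟩ : ∃ t : ℕ → ℚ, t = fun v : ℕ => s v - n := ⟨_, rfl⟩
  obtain ⟨t2, h2⟩ : ∃ t : ℕ → ℚ, t = fun v : ℕ => -(1 + 3 * (v : ℚ)) / 2 * s v - m := ⟨_, rfl⟩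
  obtain ⟨t3, h3⟩ : ∃ t : ℕ → ℚ, t = fun v : ℕ => -(1 - 3 * (v : ℚ)) / 2 * s v - m := ⟨_, rfl⟩
  obtain ⟨k1, hk⟩ : ∃ t : ℕ → ℚ, t = fun v : ℕ => s v * ((1 - 9 * (v : ℚ) ^ 2) / 4 * (s v - n) + m) +
    (m ^ 2 - n * m) := ⟨_, rfl⟩
  obtain ⟨s1, hs1⟩ : ∃ t : ℕ → ℚ, t = fun v : ℕ => κ⁻¹ * k1 v := ⟨_, rfl⟩
  have hT : ∀ (v : ℕ) (x : ℚ), F x = (x - t1 v) * (x - t2 v) * (x - t3 v) +
      (x - s v) * (κ * x - k1 v) := by
    intro v x
    rw [hF]
    exact key_id A n m κ v x hκ (s v) (t1 v) (t2 v) (t3 v) (k1 v) (by rw [hs]) (by rw [h1])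
      (by rw [h2]) (by rw [h3]) (by rw [hk])
  have hprod : ∀ v : ℕ, F (t1 v) * F (t2 v) * F (t3 v) = κ ^ 3 * (F (s v) * F (s1 v)) := by
    intro v
    have e1 : κ * s1 v = k1 v := by rw [hs1]; field_simp
    rw [hT v (t1 v), hT v (t2 v), hT v (t3 v), hT v (s v), hT v (s1 v), ← e1]
    ring
  -- bounded denominators
  have bv : BD fun v : ℕ => (v : ℚ) := BD.id
  have bs : BD s := by
    have := (BD.const (-A + 9 * n / 4)).add ((BD.const (-(9 * n / 4))).mul (bv.mul bv))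
    have e : s = fun v : ℕ => -A + 9 * n / 4 + -(9 * n / 4) * ((v : ℚ) * v) := by
      rw [hs]; funext v; ring
    rw [e]; exact this
  have bt1 : BD t1 := by
    have e : t1 = fun v : ℕ => s v + -n := by rw [h1]; funext v; ring
    rw [e]; exact bs.add (BD.const _)
  have bt2 : BD t2 := by
    have e : t2 = fun v : ℕ => (-(1 / 2) + -(3 / 2) * (v : ℚ)) * s v + -m := by
      rw [h2]; funext v; ring
    rw [e]; exact (((BD.const _).add ((BD.const _).mul bv)).mul bs).add (BD.const _)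
  have bt3 : BD t3 := by
    have e : t3 = fun v : ℕ => (-(1 / 2) + (3 / 2) * (v : ℚ)) * s v + -m := by
      rw [h3]; funext v; ring
    rw [e]; exact (((BD.const _).add ((BD.const _).mul bv)).mul bs).add (BD.const _)
  have bk : BD k1 := by
    have e : k1 = fun v : ℕ => s v * (((1 / 4) + -(9 / 4) * ((v : ℚ) * v)) * (s v + -n) + m) +
        (m ^ 2 - n * m) := by rw [hk]; funext v; ring
    rw [e]
    exact (bs.mul ((((BD.const _).add ((BD.const _).mul (bv.mul bv))).mul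
      (bs.add (BD.const _))).add (BD.const _))).add (BD.const _)
  have bs1 : BD s1 := by rw [hs1]; exact (BD.const _).mul bk
  -- limits
  have lv : Tendsto (fun v : ℕ => (v : ℚ)) atTop atTop := tendsto_natCast_atTop_atTop
  have lv2 : Tendsto (fun v : ℕ => (v : ℚ) * v) atTop atTop := lv.atTop_mul_atTop₀ lv
  have la : Tendsto (fun v : ℕ => (1 - 9 * (v : ℚ) ^ 2) / 4) atTop atBot := by
    have e : (fun v : ℕ => (1 - 9 * (v : ℚ) ^ 2) / 4) =
        fun v : ℕ => -(9 / 4) * ((v : ℚ) * v) + 1 / 4 := by funext v; ring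
    rw [e]
    exact tendsto_atBot_add_const_right _ _ (lv2.const_mul_atTop_of_neg (by norm_num))
  have l2 : Tendsto (fun v : ℕ => -(1 + 3 * (v : ℚ)) / 2) atTop atBot := by
    have e : (fun v : ℕ => -(1 + 3 * (v : ℚ)) / 2) = fun v : ℕ => -(3 / 2) * (v : ℚ) + -(1 / 2) := by
      funext v; ring
    rw [e]
    exact tendsto_atBot_add_const_right _ _ (lv.const_mul_atTop_of_neg (by norm_num))
  have l3 : Tendsto (fun v : ℕ => -(1 - 3 * (v : ℚ)) / 2) atTop atTop := by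
    have e : (fun v : ℕ => -(1 - 3 * (v : ℚ)) / 2) = fun v : ℕ => (3 / 2) * (v : ℚ) + -(1 / 2) := by
      funext v; ring
    rw [e]
    exact tendsto_atTop_add_const_right _ _ (lv.const_mul_atTop (by norm_num))
  have es : s = fun v : ℕ => -(9 * n / 4) * ((v : ℚ) * v) + (-A + 9 * n / 4) := by
    rw [hs]; funext v; ring
  have et1 : t1 = fun v : ℕ => s v + -n := by rw [h1]; funext v; ring
  have et2 : t2 = fun v : ℕ => -(1 + 3 * (v : ℚ)) / 2 * s v + -m := by rw [h2]; funext v; ring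
  have et3 : t3 = fun v : ℕ => -(1 - 3 * (v : ℚ)) / 2 * s v + -m := by rw [h3]; funext v; ring
  have hkey : ∀ {a b c d e : ℤ} {v : ℕ}, (F (t1 v) ≠ 0 ∧ H h (F (t1 v)) = a) →
      (F (t2 v) ≠ 0 ∧ H h (F (t2 v)) = b) → (F (t3 v) ≠ 0 ∧ H h (F (t3 v)) = c) →
      (F (s v) ≠ 0 ∧ H h (F (s v)) = d) → (F (s1 v) ≠ 0 ∧ H h (F (s1 v)) = e) →
      a * b * c = H h κ * (d * e) := by
    intro a b c d e v q1 q2 q3 q4 q5
    have h5 := congrArg (H h) (hprod v)
    rw [H_mul hh (mul_ne_zero q1.1 q2.1) q3.1, H_mul hh q1.1 q2.1,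
      H_mul hh (pow_ne_zero 3 hκ0) (mul_ne_zero q4.1 q5.1), H_mul hh q4.1 q5.1, H_pow3 hh hκ0,
      q1.2, q2.2, q3.2, q4.2, q5.2] at h5
    exact h5
  have hsq : ∀ {x : ℚ} {a : ℤ}, (F x ≠ 0 ∧ H h (F x) = a) → a * a = 1 := by
    intro x a hx
    rw [← hx.2]
    exact H_sq hh hx.1
  rcases lt_or_gt_of_ne hn with hn | hn
  · -- `n < 0`
    have ls : Tendsto s atTop atTop := by
      rw [es]
      exact tendsto_atTop_add_const_right _ _ (lv2.const_mul_atTop (by linarith))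
    have lt1 : Tendsto t1 atTop atTop := by rw [et1]; exact tendsto_atTop_add_const_right _ _ ls
    have lt2 : Tendsto t2 atTop atBot := by
      rw [et2]; exact tendsto_atBot_add_const_right _ _ (l2.atBot_mul_atTop₀ ls)
    have lt3 : Tendsto t3 atTop atTop := by
      rw [et3]; exact tendsto_atTop_add_const_right _ _ (l3.atTop_mul_atTop₀ ls)
    have lk : Tendsto k1 atTop atBot := by
      rw [hk]
      refine tendsto_atBot_add_const_right _ _ (ls.atTop_mul_atBot₀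
        (tendsto_atBot_add_const_right _ _ (la.atBot_mul_atTop₀ ?_)))
      rw [h1] at lt1
      exact lt1
    refine ⟨fun hp => ?_, fun hp => ?_⟩
    · have ls1 : Tendsto s1 atTop atBot := by
        rw [hs1]; exact lk.const_mul_atBot (inv_pos.2 hp)
      obtain ⟨v, q1, q2, q3, q4, q5⟩ := ((hf.top bt1 lt1).and ((hf.bot bt2 lt2).and
        ((hf.top bt3 lt3).and ((hf.top bs ls).and (hf.bot bs1 ls1))))).exists
      have h6 := hkey q1 q2 q3 q4 q5
      have h7 := hsq q1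
      have h8 := hsq q2
      linear_combination (-(p * q)) * h6 + (-(H h κ) * q * q + p * q * q) * h7 +
        (p - H h κ) * h8
    · have ls1 : Tendsto s1 atTop atTop := by
        rw [hs1]; exact lk.const_mul_atBot_of_neg (inv_lt_zero.2 hp)
      obtain ⟨v, q1, q2, q3, q4, q5⟩ := ((hf.top bt1 lt1).and ((hf.bot bt2 lt2).and
        ((hf.top bt3 lt3).and ((hf.top bs ls).and (hf.top bs1 ls1))))).exists
      have h6 := hkey q1 q2 q3 q4 q5
      have h7 := hsq q1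
      linear_combination (-1 : ℤ) * h6 + (q - H h κ) * h7
  · -- `n > 0`
    have ls : Tendsto s atTop atBot := by
      rw [es]
      exact tendsto_atBot_add_const_right _ _ (lv2.const_mul_atTop_of_neg (by linarith))
    have lt1 : Tendsto t1 atTop atBot := by rw [et1]; exact tendsto_atBot_add_const_right _ _ ls
    have lt2 : Tendsto t2 atTop atTop := by
      rw [et2]; exact tendsto_atTop_add_const_right _ _ (l2.atBot_mul_atBot₀ ls)
    have lt3 : Tendsto t3 atTop atBot := by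
      rw [et3]; exact tendsto_atBot_add_const_right _ _ (l3.atTop_mul_atBot₀ ls)
    have lk : Tendsto k1 atTop atBot := by
      rw [hk]
      refine tendsto_atBot_add_const_right _ _ (ls.atBot_mul_atTop₀
        (tendsto_atTop_add_const_right _ _ (la.atBot_mul_atBot₀ ?_)))
      rw [h1] at lt1
      exact lt1
    refine ⟨fun hp => ?_, fun hp => ?_⟩
    · have ls1 : Tendsto s1 atTop atBot := by
        rw [hs1]; exact lk.const_mul_atBot (inv_pos.2 hp)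
      obtain ⟨v, q1, q2, q3, q4, q5⟩ := ((hf.bot bt1 lt1).and ((hf.top bt2 lt2).and
        ((hf.bot bt3 lt3).and ((hf.bot bs ls).and (hf.bot bs1 ls1))))).exists
      have h6 := hkey q1 q2 q3 q4 q5
      have h7 := hsq q1
      linear_combination (-1 : ℤ) * h6 + (p - H h κ) * h7
    · have ls1 : Tendsto s1 atTop atTop := by
        rw [hs1]; exact lk.const_mul_atBot_of_neg (inv_lt_zero.2 hp)
      obtain ⟨v, q1, q2, q3, q4, q5⟩ := ((hf.bot bt1 lt1).and ((hf.top bt2 lt2).and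
        ((hf.bot bt3 lt3).and ((hf.bot bs ls).and (hf.top bs1 ls1))))).exists
      have h6 := hkey q1 q2 q3 q4 q5
      have h7 := hsq q1
      have h8 := hsq q2
      linear_combination (-(p * q)) * h6 + (-(H h κ) * p * p + q * p * p) * h7 +
        (q - H h κ) * h8

end Pool.Agent.Lib_helper65.PC
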