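import Pool.Agent.Lib_helper65.PC.A

/-!
# Pure cubic polynomials

`h(n^3 + b k^3)` is not eventually constant at both ends for all `k`.
-/

set_option autoImplicit false

namespace Pool.Agent.Lib_helper65.PC

open Pool.Agent.Lib_helper11.CUB Filter

variable {h : ℕ → ℤ}

/-- the relation between `x^3 + β` and `x^3 + 2 β` -/
theorem double (hh : CM h) {β : ℚ} (hβ : β ≠ 0) {p m : ℤ} (hf : TS h (fun x => x ^ 3 + β) p m)
    {u : ℚ} (hu : u ≠ 0) (h1 : u ^ 3 + β ≠ 0) (h2 : u ^ 3 + 2 * β ≠ 0)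
    (hs : 0 < β * ((u ^ 3 + 2 * β) * (u ^ 3 + β))) :
    H h (u ^ 3 + 2 * β) = H h β * m * H h (u ^ 3 + β) := by
  have hf2 := hf.shift u
  have e : (fun x : ℚ => (x + u) ^ 3 + β) = fun x => x ^ 3 + (3 * u) * x ^ 2 +
      3 * ((u ^ 3 + β) / u ^ 2) * (u ^ 4 / (u ^ 3 + β)) * x +
      ((u ^ 3 + β) / u ^ 2) ^ 2 * (u ^ 4 / (u ^ 3 + β)) := by
    funext x
    field_simp
    ring
  have hf3 : TS h (fun x => x ^ 3 + (3 * u) * x ^ 2 +
      3 * ((u ^ 3 + β) / u ^ 2) * (u ^ 4 / (u ^ 3 + β)) * x +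
      ((u ^ 3 + β) / u ^ 2) ^ 2 * (u ^ 4 / (u ^ 3 + β))) p m := by
    rw [← e]; exact hf2
  obtain ⟨κ, hκ⟩ : ∃ κ : ℚ, κ = 3 * u - 2 * ((u ^ 3 + β) / u ^ 2) - u ^ 4 / (u ^ 3 + β) :=
    ⟨_, rfl⟩
  have hκ2 : κ * (u ^ 2 * (u ^ 3 + β)) = -(β * (u ^ 3 + 2 * β)) := by
    rw [hκ]
    field_simp
    ring
  have hκ3 : κ * (u * (u ^ 3 + β)) ^ 2 = -(β * ((u ^ 3 + 2 * β) * (u ^ 3 + β))) := by
    linear_combination (u ^ 3 + β) * hκ2
  have hneg : κ < 0 := by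
    by_contra h0
    have : 0 ≤ κ * (u * (u ^ 3 + β)) ^ 2 := mul_nonneg (not_lt.1 h0) (sq_nonneg _)
    linarith
  have hκ0 : κ ≠ 0 := hneg.ne
  have h3 := (keyA hh (div_ne_zero (pow_ne_zero 4 hu) h1) hκ hκ0 hf3).2 hneg
  have h4 := congrArg (H h) hκ3
  rw [H_neg, H_mul hh hκ0 (pow_ne_zero 2 (mul_ne_zero hu h1)), H_pow2 hh (mul_ne_zero hu h1),
    H_mul hh hβ (mul_ne_zero h2 h1), H_mul hh h2 h1, h3] at h4
  have h5 := H_sq hh hβ
  have h6 := H_sq hh h1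
  have h7 := H_sq hh h2
  linear_combination (-(H h β * H h (u ^ 3 + β))) * h4 + (-H h (u ^ 3 + 2 * β) *
    H h (u ^ 3 + β) * H h (u ^ 3 + β)) * h5 + (-H h (u ^ 3 + 2 * β)) * h6

/-- the constants of `x^3 + 2 β` -/
theorem TS_double (hh : CM h) {β : ℚ} (hβ : 0 < β) {p m : ℤ}
    (hf : TS h (fun x => x ^ 3 + β) p m) :
    TS h (fun x => x ^ 3 + 2 * β) (H h β * m * p) (H h β * m * m) := by
  intro D hD
  obtain ⟨N, hN⟩ := hf D hD
  refine ⟨max N (2 * β + 1), fun z => ⟨fun hz => ?_, fun hz => ?_⟩⟩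
  · have h1 : N ≤ (z : ℚ) / D := le_trans (le_max_left _ _) hz
    have h2 : 2 * β + 1 ≤ (z : ℚ) / D := le_trans (le_max_right _ _) hz
    obtain ⟨u, hu⟩ : ∃ u : ℚ, u = (z : ℚ) / D := ⟨_, rfl⟩
    rw [← hu] at h1 h2 ⊢
    have h3 := (hN z).1 (by rw [← hu]; exact h1)
    rw [← hu] at h3
    have hu0 : 0 < u := by linarith
    have hu3 : 0 < u ^ 3 := by positivity
    have h4 : 0 < u ^ 3 + β := by linarith
    have h5 : 0 < u ^ 3 + 2 * β := by linarith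
    refine ⟨h5.ne', ?_⟩
    show H h (u ^ 3 + 2 * β) = _
    rw [double hh hβ.ne' hf hu0.ne' h4.ne' h5.ne' (by positivity)]
    have h6 : H h (u ^ 3 + β) = p := h3.2
    rw [h6]
  · have h1 : (z : ℚ) / D ≤ -N := le_trans hz (neg_le_neg (le_max_left _ _))
    have h2 : (z : ℚ) / D ≤ -(2 * β + 1) := le_trans hz (neg_le_neg (le_max_right _ _))
    obtain ⟨u, hu⟩ : ∃ u : ℚ, u = (z : ℚ) / D := ⟨_, rfl⟩
    rw [← hu] at h1 h2 ⊢
    have h3 := (hN z).2 (by rw [← hu]; exact h1)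
    rw [← hu] at h3
    have hu0 : u < 0 := by linarith
    have h5 : u ^ 3 + 2 * β < 0 := by nlinarith [sq_nonneg u, sq_nonneg (u + 1)]
    have h4 : u ^ 3 + β < 0 := by linarith
    refine ⟨h5.ne, ?_⟩
    show H h (u ^ 3 + 2 * β) = _
    rw [double hh hβ.ne' hf hu0.ne h4.ne h5.ne (mul_pos hβ (mul_pos_of_neg_of_neg h5 h4))]
    have h6 : H h (u ^ 3 + β) = m := h3.2
    rw [h6]

/-- `h` is constant along `u^3 + b` for all positive rational `u` -/
theorem const_pos (hh : CM h) {b : ℚ} (hb : 0 < b) {p m : ℤ}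
    (hf : TS h (fun x => x ^ 3 + b) p m) (u : ℚ) (hu : 0 < u) : H h (u ^ 3 + b) = p := by
  have hm1 : m * m = 1 := by
    obtain ⟨N, hN⟩ := hf 1 le_rfl
    have h1 := (hN (-⌈N⌉)).2 (by
      push_cast
      rw [div_one]
      exact neg_le_neg (Int.le_ceil N))
    rw [← h1.2]
    exact H_sq hh h1.1
  have hb2 : (0 : ℚ) < 2 * b := by linarith
  have hb4 : (0 : ℚ) < 2 * (2 * b) := by linarith
  have hbb := H_sq hh hb.ne'
  have h22 : H h 2 * H h 2 = 1 := H_sq hh two_ne_zero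
  have e2b : H h (2 * b) = H h 2 * H h b := H_mul hh two_ne_zero hb.ne'
  have e4b : H h (2 * (2 * b)) = H h b := by
    rw [H_mul hh two_ne_zero hb2.ne', e2b, ← mul_assoc, h22, one_mul]
  have hf2 := TS_double hh hb hf
  have hf4 := TS_double hh hb2 hf2
  have hf8 := TS_double hh hb4 hf4
  have e8 : ∀ x : ℚ, x ^ 3 + 2 * (2 * (2 * b)) = 2 ^ 3 * ((x / 2) ^ 3 + b) := by intro x; ring
  -- the value of `m`
  have hmv : m = H h 2 * H h b := by
    obtain ⟨N, hN⟩ := hf 1 le_rfl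
    obtain ⟨N8, hN8⟩ := hf8 1 le_rfl
    obtain ⟨z, hz⟩ : ∃ z : ℕ, N ≤ z ∧ N8 ≤ 2 * z := by
      obtain ⟨z, hz⟩ := exists_nat_ge (max N N8)
      refine ⟨z, le_trans (le_max_left _ _) hz, ?_⟩
      have h1 : N8 ≤ (z : ℚ) := le_trans (le_max_right _ _) hz
      have h2 : (0 : ℚ) ≤ z := Nat.cast_nonneg z
      linarith
    have h1 := (hN (-z)).2 (by push_cast; rw [div_one]; linarith [hz.1])
    have h2 := (hN8 (-(2 * z))).2 (by push_cast; rw [div_one]; linarith [hz.2])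
    have h3 : H h ((-(z : ℚ)) ^ 3 + b) = m := by
      have := h1.2
      push_cast at this
      rw [div_one] at this
      exact this
    have h4 : H h ((-(2 * (z : ℚ))) ^ 3 + 2 * (2 * (2 * b))) =
        H h (2 * (2 * b)) * (H h (2 * b) * (H h b * m * m) * (H h b * m * m)) *
        (H h (2 * b) * (H h b * m * m) * (H h b * m * m)) := by
      have := h2.2
      push_cast at this
      rw [div_one] at this
      exact this
    have h5 : ((-(z : ℚ)) ^ 3 + b) ≠ 0 := by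
      have := h1.1
      push_cast at this
      rw [div_one] at this
      exact this
    rw [e8, show -(2 * (z : ℚ)) / 2 = -(z : ℚ) by ring,
      H_mul hh (pow_ne_zero 3 two_ne_zero) h5, H_pow3 hh two_ne_zero, h3, e4b, e2b] at h4
    have e1 : H h 2 * H h b * (H h b * m * m) * (H h b * m * m) = H h 2 * H h b := by
      linear_combination (H h 2 * H h b * (m * m) * (m * m)) * hbb +
        (H h 2 * H h b * (m * m + 1)) * hm1
    rw [e1] at h4
    linear_combination (H h 2) * h4 - m * h22 + (H h 2 * H h b * H h 2 * H h 2) * hbb +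
      (H h 2 * H h b) * h22
  -- halving
  have hhalf : ∀ v : ℚ, 0 < v → H h ((v / 2) ^ 3 + b) = H h (v ^ 3 + b) := by
    intro v hv
    have hv3 : 0 < v ^ 3 := by positivity
    have p1 : 0 < v ^ 3 + b := by linarith
    have p2 : 0 < v ^ 3 + 2 * b := by linarith
    have p4 : 0 < v ^ 3 + 2 * (2 * b) := by linarith
    have p8 : 0 < v ^ 3 + 2 * (2 * (2 * b)) := by linarith
    have q0 : 0 < (v / 2) ^ 3 + b := by positivity
    have r1 := double hh hb.ne' hf hv.ne' p1.ne' p2.ne' (by positivity)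
    have r2 := double hh hb2.ne' hf2 hv.ne' p2.ne' p4.ne' (by positivity)
    have r3 := double hh hb4.ne' hf4 hv.ne' p4.ne' p8.ne' (by positivity)
    rw [r2, r1, e8, H_mul hh (pow_ne_zero 3 two_ne_zero) q0.ne', H_pow3 hh two_ne_zero, e4b,
      e2b] at r3
    generalize H h (v ^ 3 + b) = X at r3 ⊢
    generalize H h ((v / 2) ^ 3 + b) = Y at r3 ⊢
    generalize H h b = B at *
    generalize H h 2 = T at *
    have hB14 : B ^ 14 = 1 := by
      rw [show B ^ 14 = (B * B) ^ 7 by ring, hbb]; norm_num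
    have hT9 : T ^ 9 = T := by
      rw [show T ^ 9 = (T * T) ^ 4 * T by ring, h22]; norm_num
    subst hmv
    have h9 : T * Y = T * X := by
      rw [r3]
      linear_combination (X * T ^ 9) * hB14 + X * hT9
    have := congrArg (fun z => T * z) h9
    simp only [← mul_assoc, h22, one_mul] at this
    exact this
  -- doubling up to infinity
  have hdbl : ∀ j : ℕ, H h ((2 ^ j * u) ^ 3 + b) = H h (u ^ 3 + b) := by
    intro j
    induction j with
    | zero => simp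
    | succ j ih =>
      rw [← ih, ← hhalf (2 ^ (j + 1) * u) (by positivity)]
      congr 2
      ring
  obtain ⟨N, hN⟩ := hf u.den u.den_pos
  obtain ⟨j, hj⟩ := pow_unbounded_of_one_lt (N / u) (one_lt_two : (1 : ℚ) < 2)
  have e : (2 : ℚ) ^ j * u = ((2 ^ j * u.num : ℤ) : ℚ) / u.den := by
    push_cast
    rw [mul_div_assoc, Rat.num_div_den]
  have h1 := (hN (2 ^ j * u.num)).1 (by
    rw [← e]
    rw [div_lt_iff₀ hu] at hj
    exact hj.le)
  rw [← e] at h1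
  rw [← hdbl j]
  exact h1.2

/-- the contradiction -/
theorem contra (hh : CM h) {b : ℚ} (hb : 0 < b) {p : ℤ}
    (hp : ∀ u : ℚ, 0 < u → H h (u ^ 3 + b) = p) (ρ : ℚ) (h1 : 1 < ρ) (h2 : ρ < 2) :
    H h ρ = 1 := by
  obtain ⟨δ, hδ⟩ : ∃ δ : ℚ, δ = 3 * (ρ - 1) / (ρ + 1) := ⟨_, rfl⟩
  have hρ : 0 < ρ + 1 := by linarith
  have hδ0 : 0 < δ := by rw [hδ]; exact div_pos (by linarith) hρ
  have hδ1 : δ < 1 := by rw [hδ, div_lt_one hρ]; linarith
  have hδ2 : 0 < 1 - δ ^ 2 := by nlinarith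
  obtain ⟨t0, ht0⟩ := exists_nat_gt (8 * b / (1 - δ ^ 2))
  obtain ⟨t, ht⟩ : ∃ t : ℚ, t = (t0 : ℚ) + 1 := ⟨_, rfl⟩
  have t1 : 1 ≤ t := by rw [ht]; have : (0 : ℚ) ≤ t0 := Nat.cast_nonneg t0; linarith
  have t0' : 0 < t := by linarith
  have t3 : 8 * b < (1 - δ ^ 2) * t ^ 3 := by
    have h3 : 8 * b < (1 - δ ^ 2) * t := by
      rw [div_lt_iff₀ hδ2] at ht0
      rw [ht]
      nlinarith
    have h4 : t ≤ t ^ 3 := by nlinarith [sq_nonneg (t - 1)]
    have h5 : (1 - δ ^ 2) * t ≤ (1 - δ ^ 2) * t ^ 3 := mul_le_mul_of_nonneg_left h4 hδ2.le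
    linarith
  obtain ⟨y, hy⟩ : ∃ y : ℚ, y = δ * t ^ 2 := ⟨_, rfl⟩
  have hy0 : 0 < y := by rw [hy]; positivity
  have hyt : y < t ^ 2 := by rw [hy]; nlinarith [pow_pos t0' 2]
  have hy2 : y ^ 2 < t ^ 4 - 8 * b * t := by
    have : y ^ 2 = δ ^ 2 * t ^ 4 := by rw [hy]; ring
    rw [this]
    nlinarith
  obtain ⟨C, hC⟩ : ∃ C : ℚ, C = t ^ 3 + b := ⟨_, rfl⟩
  have hC0 : 0 < C := by rw [hC]; positivity
  have hC1 : H h C = p := by rw [hC]; exact hp t t0'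
  have hm : 0 < 3 * t ^ 2 - y := by nlinarith [pow_pos t0' 2]
  have hpl : 0 < 3 * t ^ 2 + y := by positivity
  -- `t^3 - t y > 2 b`
  have hty : 2 * b < t ^ 3 - t * y := by
    by_contra hcon
    have h3 : t ^ 3 - t * y ≤ 2 * b := not_lt.1 hcon
    have h4 : 0 < t ^ 3 - 2 * b := by nlinarith [pow_pos t0' 3, sq_nonneg δ]
    have h5 : t ^ 3 - 2 * b ≤ t * y := by linarith
    have h6 : (t ^ 3 - 2 * b) ^ 2 ≤ (t * y) ^ 2 := pow_le_pow_left₀ h4.le h5 2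
    have h7 : (t * y) ^ 2 < t ^ 2 * (t ^ 4 - 8 * b * t) := by
      rw [mul_pow]
      exact mul_lt_mul_of_pos_left hy2 (by positivity)
    have h8 : (t ^ 3 - 2 * b) ^ 2 < t ^ 6 - 8 * b * t ^ 3 := by nlinarith
    nlinarith [pow_pos t0' 3, sq_nonneg b, mul_pos hb (pow_pos t0' 3)]
  obtain ⟨s, hs⟩ : ∃ s : ℚ, s = t - 2 * C / (3 * t ^ 2 - y) := ⟨_, rfl⟩
  obtain ⟨s1, hs1⟩ : ∃ s : ℚ, s = t - 2 * C / (3 * t ^ 2 + y) := ⟨_, rfl⟩
  obtain ⟨κ, hκ⟩ : ∃ κ : ℚ, κ = (3 * t ^ 2 - y) * (3 * t ^ 2 + y) / (4 * C) := ⟨_, rfl⟩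
  obtain ⟨r, hr⟩ : ∃ r : ℚ, r = κ - 2 * t := ⟨_, rfl⟩
  have hs0 : 0 < s := by
    rw [hs, sub_pos, div_lt_iff₀ hm, hC]
    nlinarith
  have hs10 : 0 < s1 := by
    rw [hs1, sub_pos, div_lt_iff₀ hpl, hC]
    nlinarith [mul_pos t0' hy0]
  have hκ0 : 0 < κ := by rw [hκ]; exact div_pos (mul_pos hm hpl) (by linarith)
  have hr0 : 0 < r := by
    rw [hr, sub_pos, hκ, lt_div_iff₀ (by linarith : (0 : ℚ) < 4 * C), hC]
    nlinarith
  have hT : ∀ x : ℚ, x ^ 3 + b - κ * ((x - s) * (x - s1)) = (x - t) ^ 2 * (x - r) := by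
    intro x
    have a1 : κ * (t - s) * (t - s1) = C := by
      rw [hκ, hs, hs1]
      field_simp
      ring
    have a2 : κ * ((t - s) + (t - s1)) = 3 * t ^ 2 := by
      rw [hκ, hs, hs1]
      field_simp
      ring
    have a3 : κ * ((x - s) * (x - s1)) = κ * (x - t) ^ 2 + (x - t) * (3 * t ^ 2) + C := by
      linear_combination (x - t) * a2 + a1
    rw [a3, hr, hC]
    ring
  have k1 : H h (s ^ 3 + b) = p := hp s hs0
  have k2 : H h (s1 ^ 3 + b) = p := hp s1 hs10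
  have k3 : H h (r ^ 3 + b) = p := hp r hr0
  have n1 : s ^ 3 + b ≠ 0 := by positivity
  have n2 : s1 ^ 3 + b ≠ 0 := by positivity
  have n3 : r ^ 3 + b ≠ 0 := by positivity
  have f1 : s ^ 3 + b = (s - t) ^ 2 * (s - r) := by rw [← hT s]; ring
  have f2 : s1 ^ 3 + b = (s1 - t) ^ 2 * (s1 - r) := by rw [← hT s1]; ring
  have f3 : r ^ 3 + b = κ * ((r - s) * (r - s1)) := by
    have := hT r
    linear_combination this
  have key : (r ^ 3 + b) * ((s - t) * (s1 - t)) ^ 2 = κ * ((s ^ 3 + b) * (s1 ^ 3 + b)) := by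
    rw [f1, f2, f3]; ring
  have z1 : s - t ≠ 0 := by intro h0; rw [h0] at f1; apply n1; rw [f1]; ring
  have z2 : s1 - t ≠ 0 := by intro h0; rw [h0] at f2; apply n2; rw [f2]; ring
  have hk := congrArg (H h) key
  rw [H_mul hh n3 (pow_ne_zero 2 (mul_ne_zero z1 z2)), H_pow2 hh (mul_ne_zero z1 z2),
    H_mul hh hκ0.ne' (mul_ne_zero n1 n2), H_mul hh n1 n2, k1, k2, k3] at hk
  have hpp : p * p = 1 := by rw [← k1]; exact H_sq hh n1
  have hκp : H h κ = p := by linear_combination (-1 : ℤ) * hk - H h κ * hpp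
  have e1 : κ * (4 * C) = ρ * (6 * t ^ 2 / (ρ + 1)) ^ 2 := by
    have hρ' : ρ + 1 ≠ 0 := hρ.ne'
    rw [hκ, div_mul_cancel₀ _ (by linarith : (4 * C) ≠ 0), hy, hδ]
    field_simp
    ring
  have e2 := congrArg (H h) e1
  have hz : 6 * t ^ 2 / (ρ + 1) ≠ 0 := by positivity
  rw [H_mul hh hκ0.ne' (by linarith : (4 * C) ≠ 0), H_mul hh (by norm_num) hC0.ne',
    H_mul hh (by linarith : ρ ≠ 0) (pow_ne_zero 2 hz), H_pow2 hh hz, hκp, hC1,
    show (4 : ℚ) = 2 ^ 2 by norm_num, H_pow2 hh two_ne_zero] at e2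
  linear_combination (-1 : ℤ) * e2 + hpp

theorem trivial_of (hh : CM h) (hr : ∀ ρ : ℚ, 1 < ρ → ρ < 2 → H h ρ = 1) (n : ℕ) (hn : 1 ≤ n) :
    h n = 1 := by
  have step : ∀ k : ℕ, 2 ≤ k → h (k + 1) = h k := by
    intro k hk
    have hk0 : (0 : ℚ) < k := by exact_mod_cast (by omega : 0 < k)
    have hk2 : (2 : ℚ) ≤ k := by exact_mod_cast hk
    have h1 := hr (((k + 1 : ℕ) : ℚ) / k) (by rw [lt_div_iff₀ hk0]; push_cast; linarith)
      (by rw [div_lt_iff₀ hk0]; push_cast; linarith)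
    have h2 : H h (((k + 1 : ℕ) : ℚ) / k * (k * k)) = H h (((k + 1 : ℕ) : ℚ) * k) := by
      congr 1
      field_simp
    have hk1 : (((k + 1 : ℕ) : ℚ)) ≠ 0 := by positivity
    rw [H_mul hh (div_ne_zero hk1 hk0.ne') (mul_ne_zero hk0.ne' hk0.ne'), h1,
      H_mul hh hk0.ne' hk0.ne', H_mul hh hk1 hk0.ne', H_nat hh, H_nat hh] at h2
    have h3 := hh.sq (show 1 ≤ k by omega)
    linear_combination (-(h k)) * h2 + (h k - h (k + 1)) * h3
  have all : ∀ k : ℕ, 2 ≤ k → h k = h 2 := by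
    intro k hk
    induction k, hk using Nat.le_induction with
    | base => rfl
    | succ k hk ih => rw [step k hk, ih]
  have h4 : h 2 = 1 := by
    have h5 := hh.mul 2 2 (by norm_num) (by norm_num)
    rw [hh.sq (by norm_num)] at h5
    rw [← all 4 (by norm_num)]
    exact h5
  rcases Nat.lt_or_ge n 2 with h6 | h6
  · have : n = 1 := by omega
    rw [this]
    exact hh.one
  · rw [all n h6, h4]

theorem main_pos (hh : CM h) (hne : ∃ n : ℕ, 1 ≤ n ∧ h n = -1) {b : ℚ} (hb : 0 < b) (p m : ℤ) :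
    ¬ TS h (fun x => x ^ 3 + b) p m := by
  intro hf
  obtain ⟨n, hn, h1⟩ := hne
  have h2 := trivial_of hh (fun ρ a1 a2 => contra hh hb (const_pos hh hb hf) ρ a1 a2) n hn
  rw [h2] at h1
  norm_num at h1

end Pool.Agent.Lib_helper65.PC
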